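import Mathlib
import Pool.Agent.Hhelper25.WinTri
import Pool.Agent.Hhelper25.InfDivEq

/-!
# The limit laws of the Mallows longest increasing subsequence (question 2, along subsequences)

Let `q_n → 1` and let `G` be a nondegenerate limit law of an affine normalisation of `L_n(q_n)` along
a subsequence. Then `G` is of the type of the Tracy-Widom law `F_2` iff `n (1 - q_n) → 0` along the
subsequence, `G` is infinitely divisible iff `n (1 - q_n) → ∞` along it, and `G` is neither (in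
particular neither `F_2` nor Gaussian) iff `n (1 - q_n)` is bounded and bounded away from `0`. In
this critical window `L_n(q_n)` is tight around an explicit centring at scale `n^{1/6}`, and every
subsequence has a further subsequence along which it converges in distribution to such a third law.
-/

namespace Pool.Agent.Results.MP_5d6058_pr.LimitLaws

open Finset Filter Topology

/-- number of inversions of a permutation -/
def inv {n : ℕ} (π : Equiv.Perm (Fin n)) : ℕ :=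
  ((univ : Finset (Fin n × Fin n)).filter (fun a => a.1 < a.2 ∧ π a.2 < π a.1)).card

open Classical in
/-- length of a longest increasing subsequence of a permutation: the largest cardinality of a set
of positions on which the permutation is strictly increasing -/
noncomputable def lis {n : ℕ} (π : Equiv.Perm (Fin n)) : ℕ :=
  ((univ : Finset (Finset (Fin n))).filter (fun s : Finset (Fin n) =>
    StrictMonoOn π (s : Set (Fin n)))).sup card

open Classical in
/-- the probability, under the Mallows measure with parameter `q` on the permutations of `n`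
points, that the longest increasing subsequence has length at most `y` -/
noncomputable def mallowsCDF (q : ℝ) (n : ℕ) (y : ℝ) : ℝ :=
  (∑ π : Equiv.Perm (Fin n), if (lis π : ℝ) ≤ y then q ^ inv π else 0) /
    (∑ π : Equiv.Perm (Fin n), q ^ inv π)

/-- `G` is the distribution function of a probability measure on the line -/
def IsDistributionFunction (G : ℝ → ℝ) : Prop :=
  Monotone G ∧ (∀ x, ContinuousWithinAt G (Set.Ici x) x) ∧
    Tendsto G atBot (𝓝 0) ∧ Tendsto G atTop (𝓝 1)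

/-- convergence in distribution of a sequence of laws, given by their distribution functions,
to the law with distribution function `G` -/
def ConvergesInLaw (H : ℕ → ℝ → ℝ) (G : ℝ → ℝ) : Prop :=
  ∀ x, ContinuousAt G x → Tendsto (fun n => H n x) atTop (𝓝 (G x))

/-- `F` is the limit in distribution of `(L_n(1) - 2 √n) / n^{1/6}`, the Tracy-Widom law `F_2` -/
def IsTracyWidom (F : ℝ → ℝ) : Prop :=
  IsDistributionFunction F ∧
    ConvergesInLaw (fun n x => mallowsCDF 1 n (2 * Real.sqrt n + x * (n : ℝ) ^ (1 / 6 : ℝ))) F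

/-- the law with distribution function `G` is not a point mass -/
def Nondegenerate (G : ℝ → ℝ) : Prop := ∃ x, 0 < G x ∧ G x < 1

/-- `G` is of the type of `F`: the two laws are the same up to an increasing affine map -/
def SameType (F G : ℝ → ℝ) : Prop := ∃ c d : ℝ, 0 < d ∧ ∀ x, G x = F (c + d * x)

/-- for every `m ≥ 1`, `G` is the distribution function of a sum of `m` independent identically
distributed random variables -/
def InfinitelyDivisible (G : ℝ → ℝ) : Prop := ∀ m : ℕ, 1 ≤ m →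
  ∃ ν : MeasureTheory.Measure ℝ, MeasureTheory.IsProbabilityMeasure ν ∧
    ∀ x, G x = (MeasureTheory.Measure.pi (fun _ : Fin m => ν)).real {y | ∑ i, y i ≤ x}

/-- `G` is the distribution function of a Gaussian law with mean `μ` and variance `v > 0` -/
def IsGaussian (G : ℝ → ℝ) : Prop := ∃ (μ : ℝ) (v : NNReal), v ≠ 0 ∧
  ∀ x, G x = (ProbabilityTheory.gaussianReal μ v (Set.Iic x)).toReal

/-- along the subsequence `n = φ 0, φ 1, ...` the law of `(L_n(q_n) - a_n) / b_n` converges in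
distribution to the law with distribution function `G` -/
def LimitAlong (q : ℕ → ℝ) (φ : ℕ → ℕ) (a b : ℕ → ℝ) (G : ℝ → ℝ) : Prop :=
  ConvergesInLaw (fun k x => mallowsCDF (q (φ k)) (φ k) (a (φ k) + x * b (φ k))) G

/-- the centring `2 arcosh (exp (nκ/2)) / √κ`, where `κ = -log q` -/
noncomputable def centre (q : ℝ) (n : ℕ) : ℝ :=
  2 * Real.arcosh (Real.exp (n * (-Real.log q) / 2)) / Real.sqrt (-Real.log q)

open Pool.Agent.Hhelper99 in
lemma mallowsCDF_eq {q : ℝ} {n : ℕ} {y : ℝ} (hy : 0 ≤ y) :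
    mallowsCDF q n y = mal q n ⌊y⌋₊ := by
  unfold mallowsCDF mal
  have h1 : ∀ π : Equiv.Perm (Fin n), inv π = invP (fun i : Fin n => i) π := by
    intro π
    unfold inv invP invSet
    congr 1
    ext a
    simp
  have h2 : ∀ π : Equiv.Perm (Fin n), lis π = lisP (fun i : Fin n => i) π := by
    intro π
    unfold lis
    exact lisP_eq_sup π
  congr 1
  · apply Finset.sum_congr rfl
    intro π _
    rw [h1, h2]
    have h3 := Nat.le_floor_iff (n := lisP (fun i : Fin n => i) π) hy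
    by_cases h : (lisP (fun i : Fin n => i) π : ℝ) ≤ y
    · rw [if_pos h, if_pos (h3.2 h), mul_one]
    · rw [if_neg h, if_neg (fun h' => h (h3.1 h')), mul_zero]
  · apply Finset.sum_congr rfl
    intro π _
    rw [h1]

open Pool.Agent.Hhelper99 Pool.Agent.TWM in
lemma mallowsCDF_eq_malR (q : ℝ) (n : ℕ) (y : ℝ) : mallowsCDF q n y = malR q n y := by
  unfold malR
  split_ifs with h
  · unfold mallowsCDF
    have : ∀ π : Equiv.Perm (Fin n), (if (lis π : ℝ) ≤ y then q ^ inv π else 0) = 0 := by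
      intro π
      rw [if_neg]
      intro h'
      have : (0 : ℝ) ≤ (lis π : ℝ) := Nat.cast_nonneg _
      linarith
    rw [Finset.sum_congr rfl (fun π _ => this π)]
    simp
  · exact mallowsCDF_eq (not_lt.1 h)

open Pool.Agent.Hhelper99 Pool.Agent.TWM in
lemma limLaw_of {F : ℝ → ℝ} (hF : IsTracyWidom F) : LimLaw F := by
  obtain ⟨⟨hmono, -, hF0, hF1⟩, hTW⟩ := hF
  refine ⟨hmono, hF0, hF1, ?_⟩
  intro x hx
  apply (hTW x hx).congr'
  filter_upwards [threshold_nonneg (a := fun n : ℕ => Real.sqrt n)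
    (Filter.Eventually.of_forall (fun n => le_rfl)) x] with n hn
  exact mallowsCDF_eq hn

open Pool.Agent.Hhelper25.Win Pool.Agent.TWM in
lemma centre_eq {q : ℝ} (hq0 : 0 < q) (hq1 : q < 1) (n : ℕ) : centre q n = ctr q n := by
  have hl : 0 < -Real.log q := by
    have := Real.log_neg hq0 hq1
    linarith
  unfold centre ctr Sx lamq
  rw [Real.sqrt_div zero_le_one, Real.sqrt_one, div_div_eq_mul_div, div_one]
  ring

lemma two_points {G : ℝ → ℝ} (hG : IsDistributionFunction G) (hn : Nondegenerate G) :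
    ∃ x1 x2 : ℝ, x1 < x2 ∧ 0 < G x1 ∧ G x2 < 1 ∧ ContinuousAt G x1 ∧ ContinuousAt G x2 := by
  obtain ⟨hm, hr, -, -⟩ := hG
  obtain ⟨x, h0, h1⟩ := hn
  have h2 := Metric.continuousWithinAt_iff.1 (hr x) (1 - G x) (by linarith)
  obtain ⟨d, hd, hd'⟩ := h2
  obtain ⟨x1, ⟨ha1, hb1⟩, hc1⟩ :=
    Pool.Agent.Hhelper99.exists_cont_point hm (show x < x + d / 2 by linarith)
  obtain ⟨x2, ⟨ha2, hb2⟩, hc2⟩ :=
    Pool.Agent.Hhelper99.exists_cont_point hm (show x + d / 2 < x + d by linarith)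
  refine ⟨x1, x2, hb1.trans ha2, h0.trans_le (hm ha1.le), ?_, hc1, hc2⟩
  have h3 := @hd' x2 (show x ≤ x2 by linarith) (by rw [Real.dist_eq, abs_lt]; constructor <;> linarith)
  rw [Real.dist_eq, abs_lt] at h3
  linarith [h3.2]

section

variable {F : ℝ → ℝ} {q : ℕ → ℝ} {β₁ β₂ : ℝ}

open Pool.Agent.Hhelper25.Win Pool.Agent.TWM

lemma halfDiv_iff {G : ℝ → ℝ} : InfinitelyDivisible G ↔ HalfDiv G :=
  ⟨fun h r => h (2 ^ r) Nat.one_le_two_pow, fun h _ hm => infDiv_of_halfDiv h hm⟩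

lemma eventually_centre (hq : ∀ n, 0 < q n ∧ q n ≤ 1) (hβ : 0 < β₁)
    (hw : ∀ᶠ n : ℕ in atTop, β₁ ≤ (n : ℝ) * (1 - q n) ∧ (n : ℝ) * (1 - q n) ≤ β₂) :
    ∀ᶠ n : ℕ in atTop, centre (q n) n = ctr (q n) n := by
  filter_upwards [hw] with n hn
  apply centre_eq (hq n).1
  by_contra hcon
  push Not at hcon
  have : (n : ℝ) * (1 - q n) ≤ 0 := mul_nonpos_of_nonneg_of_nonpos (Nat.cast_nonneg _) (by linarith)
  linarith [hn.1]

lemma tight_part (hq : ∀ n, 0 < q n ∧ q n ≤ 1) (hβ : 0 < β₁)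
    (hw : ∀ᶠ n : ℕ in atTop, β₁ ≤ (n : ℝ) * (1 - q n) ∧ (n : ℝ) * (1 - q n) ≤ β₂)
    (ε : ℝ) (hε : 0 < ε) : ∃ K : ℝ, ∀ᶠ n : ℕ in atTop,
      1 - ε ≤ mallowsCDF (q n) n (centre (q n) n + K * (n : ℝ) ^ (1 / 6 : ℝ)) -
        mallowsCDF (q n) n (centre (q n) n - K * (n : ℝ) ^ (1 / 6 : ℝ)) := by
  obtain ⟨K, -, hK⟩ := win_tight_seq (m := fun n => n) tendsto_id (fun n => (hq n).1) hβ
    (hw.mono fun n h => h.1) (hw.mono fun n h => h.2) (ε / 2) (by linarith)
  refine ⟨K, ?_⟩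
  filter_upwards [hK, eventually_centre hq hβ hw] with n h1 h2
  rw [mallowsCDF_eq_malR, mallowsCDF_eq_malR, h2]
  linarith [h1.1, h1.2]

lemma exists_part (hq : ∀ n, 0 < q n ∧ q n ≤ 1) (hβ : 0 < β₁)
    (hw : ∀ᶠ n : ℕ in atTop, β₁ ≤ (n : ℝ) * (1 - q n) ∧ (n : ℝ) * (1 - q n) ≤ β₂)
    {φ : ℕ → ℕ} (hφ : StrictMono φ) :
    ∃ ψ : ℕ → ℕ, StrictMono ψ ∧ ∃ G : ℝ → ℝ, IsDistributionFunction G ∧
      LimitAlong q (φ ∘ ψ) (fun n => centre (q n) n) (fun n => (n : ℝ) ^ (1 / 6 : ℝ)) G := by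
  obtain ⟨ψ, hψ, G, hGm, hGr, hG0, hG1, hlim⟩ := win_exists (q := fun k => q (φ k)) (m := φ)
    hφ.tendsto_atTop (fun k => (hq _).1) hβ
    (hφ.tendsto_atTop.eventually (hw.mono fun n h => h.1))
    (hφ.tendsto_atTop.eventually (hw.mono fun n h => h.2))
  refine ⟨ψ, hψ, G, ⟨hGm, hGr, hG0, hG1⟩, fun x hx => ?_⟩
  refine (hlim x hx).congr' ?_
  filter_upwards [(hφ.comp hψ).tendsto_atTop.eventually (eventually_centre hq hβ hw)] with k hk
  have hk' : centre (q (φ (ψ k))) (φ (ψ k)) = ctr (q (φ (ψ k))) (φ (ψ k)) := hk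
  rw [mallowsCDF_eq_malR]
  simp only [Function.comp_apply]
  rw [hk']

lemma nondeg_part (hF : IsTracyWidom F) (hq : ∀ n, 0 < q n ∧ q n ≤ 1) (hβ : 0 < β₁)
    (hw : ∀ᶠ n : ℕ in atTop, β₁ ≤ (n : ℝ) * (1 - q n) ∧ (n : ℝ) * (1 - q n) ≤ β₂)
    {φ : ℕ → ℕ} (hφ : StrictMono φ) {G : ℝ → ℝ} (hG : IsDistributionFunction G)
    (hlim : LimitAlong q φ (fun n => centre (q n) n) (fun n => (n : ℝ) ^ (1 / 6 : ℝ)) G) :
    Nondegenerate G := by
  by_contra hcon
  have hG0 : ∀ y, 0 ≤ G y := fun y => hG.1.le_of_tendsto hG.2.2.1 y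
  have hG1 : ∀ y, G y ≤ 1 := fun y => hG.1.ge_of_tendsto hG.2.2.2 y
  have hsub : SubG G := by
    -- `G` takes only the values `0`, `1`
    have h2 : ∀ x, G x = 0 ∨ G x = 1 := by
      intro x
      by_contra hx
      rw [not_or] at hx
      exact hcon ⟨x, lt_of_le_of_ne (hG0 x) (Ne.symm hx.1), lt_of_le_of_ne (hG1 x) hx.2⟩
    obtain ⟨x, hx⟩ := (hG.2.2.2.eventually (lt_mem_nhds (show (0 : ℝ) < 1 by norm_num))).exists
    have hx1 : G x = 1 := (h2 x).resolve_left hx.ne'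
    refine ⟨x, 0, le_rfl, fun t ht y => ?_⟩
    rcases le_total x y with h | h
    · have := hG.1 h
      have := Real.exp_pos (x * t + 0 * t ^ 2 - t * y)
      linarith
    · have h3 : 1 ≤ Real.exp (x * t + 0 * t ^ 2 - t * y) := by
        apply Real.one_le_exp
        nlinarith
      linarith [hG0 y]
  have hφt := hφ.tendsto_atTop
  have hpos : ∀ k, 0 < max 1 ((φ k : ℝ) ^ (1 / 6 : ℝ)) := fun k =>
    lt_of_lt_of_le one_pos (le_max_left _ _)
  have hmr : Tendsto (fun k => (φ k : ℝ)) atTop atTop := tendsto_natCast_atTop_atTop.comp hφt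
  have hDe : ∀ᶠ k in atTop, max 1 ((φ k : ℝ) ^ (1 / 6 : ℝ)) = (φ k : ℝ) ^ (1 / 6 : ℝ) := by
    filter_upwards [hmr.eventually (eventually_ge_atTop 1)] with k hk
    exact max_eq_right (Real.one_le_rpow hk (by norm_num))
  refine win_core (limLaw_of hF) trans_subG (excl_subG (limLaw_of hF)) (q := fun k => q (φ k))
    (m := φ) hφt (fun k => (hq _).1) hβ
    (hφt.eventually (hw.mono fun n h => h.1)) (hφt.eventually (hw.mono fun n h => h.2))
    hG.1 hG.2.2.1 hG.2.2.2 (a := fun k => ctr (q (φ k)) (φ k))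
    (b := fun k => max 1 ((φ k : ℝ) ^ (1 / 6 : ℝ))) hpos ?_ (A := 1) ?_ hsub
  · intro x hx
    refine (hlim x hx).congr' ?_
    filter_upwards [hφt.eventually (eventually_centre hq hβ hw), hDe] with k hk hk2
    rw [mallowsCDF_eq_malR, hk, hk2]
  · filter_upwards [hDe] with k hk
    rw [hk, sub_self, abs_zero, one_mul]
    exact ⟨by positivity, le_rfl⟩

lemma class_part (hF : IsTracyWidom F) (hq : ∀ n, 0 < q n ∧ q n ≤ 1) (hq1 : Tendsto q atTop (𝓝 1))
    {φ : ℕ → ℕ} (hφ : StrictMono φ) {a b : ℕ → ℝ} (hb : ∀ n, 0 < b n) {G : ℝ → ℝ}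
    (hG : IsDistributionFunction G) (hn : Nondegenerate G) (hlim : LimitAlong q φ a b G) :
    (SameType F G ↔ Tendsto (fun k => (φ k : ℝ) * (1 - q (φ k))) atTop (𝓝 0)) ∧
    (InfinitelyDivisible G ↔ Tendsto (fun k => (φ k : ℝ) * (1 - q (φ k))) atTop atTop) ∧
    ((¬ SameType F G ∧ ¬ InfinitelyDivisible G) ↔ ∃ β₁ β₂ : ℝ, 0 < β₁ ∧
      ∀ᶠ k in atTop, β₁ ≤ (φ k : ℝ) * (1 - q (φ k)) ∧ (φ k : ℝ) * (1 - q (φ k)) ≤ β₂) ∧
    (IsGaussian G → Tendsto (fun k => (φ k : ℝ) * (1 - q (φ k))) atTop atTop) := by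
  obtain ⟨x1, x2, h12, hx1, hx2, hc1, hc2⟩ := two_points hG hn
  have hL : Lim q φ G (fun k => a (φ k)) (fun k => b (φ k)) x1 x2 :=
    { mono := hG.1
      right := hG.2.1
      bot := hG.2.2.1
      top := hG.2.2.2
      bpos := fun k => hb _
      lim := fun x hx => (hlim x hx).congr (fun k => mallowsCDF_eq_malR _ _ _)
      h12 := h12
      hx1 := hx1
      hx2 := hx2
      hc1 := hc1
      hc2 := hc2 }
  obtain ⟨h1, h2, h3⟩ := classify (limLaw_of hF) hF.1.2.1 (fun n => (hq n).1) (fun n => (hq n).2)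
    hq1 hφ hL
  rw [halfDiv_iff]
  refine ⟨h1, h2, h3, ?_⟩
  rintro ⟨μ, v, -, h⟩
  exact h2.1 (gauss_halfDiv h)

/-- the limit laws in the window are third laws -/
lemma third_part (hF : IsTracyWidom F) (hq : ∀ n, 0 < q n ∧ q n ≤ 1) (hq1 : Tendsto q atTop (𝓝 1))
    (hβ : 0 < β₁)
    (hw : ∀ᶠ n : ℕ in atTop, β₁ ≤ (n : ℝ) * (1 - q n) ∧ (n : ℝ) * (1 - q n) ≤ β₂)
    {φ : ℕ → ℕ} (hφ : StrictMono φ) {G : ℝ → ℝ} (hG : IsDistributionFunction G)
    (hlim : LimitAlong q φ (fun n => centre (q n) n) (fun n => (n : ℝ) ^ (1 / 6 : ℝ)) G) :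
    Nondegenerate G ∧ ¬ SameType F G ∧ ¬ InfinitelyDivisible G ∧ ¬ IsGaussian G := by
  have hn := nondeg_part hF hq hβ hw hφ hG hlim
  have hφt := hφ.tendsto_atTop
  have hb : ∀ n : ℕ, 0 < (if n = 0 then (1 : ℝ) else (n : ℝ) ^ (1 / 6 : ℝ)) := by
    intro n
    split_ifs with h
    · exact one_pos
    · exact Real.rpow_pos_of_pos (Nat.cast_pos.2 (Nat.pos_of_ne_zero h)) _
  have hlim' : LimitAlong q φ (fun n => centre (q n) n)
      (fun n => if n = 0 then (1 : ℝ) else (n : ℝ) ^ (1 / 6 : ℝ)) G := by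
    intro x hx
    refine (hlim x hx).congr' ?_
    filter_upwards [hφt.eventually (eventually_ge_atTop 1)] with k hk
    have hk' : φ k ≠ 0 := by omega
    simp only [if_neg hk']
  obtain ⟨-, h2, h3, -⟩ := class_part hF hq hq1 hφ hb hG hn hlim'
  obtain ⟨h4, h5⟩ := h3.2 ⟨β₁, β₂, hβ, hφt.eventually hw⟩
  refine ⟨hn, h4, h5, ?_⟩
  rintro ⟨μ, v, -, h⟩
  exact h5 (halfDiv_iff.2 (gauss_halfDiv h))

end

/-- Let `q_n → 1`. (1) For a nondegenerate limit law `G` of `(L_n(q_n) - a_n) / b_n` along a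
subsequence: `G` is of the type of `F_2` iff `n (1 - q_n) → 0` along it, infinitely divisible iff
`n (1 - q_n) → ∞` along it, neither iff `n (1 - q_n)` is bounded and bounded away from `0` along it;
and if `G` is Gaussian then `n (1 - q_n) → ∞` along it. (2) In the window
`β₁ ≤ n (1 - q_n) ≤ β₂`: `L_n(q_n)` is tight around `centre (q_n) n` at scale `n^{1/6}`, every
subsequence has a further subsequence along which `(L_n(q_n) - centre) / n^{1/6}` converges in
distribution, and every such limit law is nondegenerate, not of the type of `F_2`, not infinitely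
divisible and in particular not Gaussian. -/
theorem result {F : ℝ → ℝ} (hF : IsTracyWidom F) (q : ℕ → ℝ) (hq : ∀ n, 0 < q n ∧ q n ≤ 1)
    (hq1 : Tendsto q atTop (𝓝 1)) :
    (∀ φ : ℕ → ℕ, StrictMono φ → ∀ a b : ℕ → ℝ, (∀ n, 0 < b n) → ∀ G : ℝ → ℝ,
      IsDistributionFunction G → Nondegenerate G → LimitAlong q φ a b G →
        (SameType F G ↔ Tendsto (fun k => (φ k : ℝ) * (1 - q (φ k))) atTop (𝓝 0)) ∧
        (InfinitelyDivisible G ↔ Tendsto (fun k => (φ k : ℝ) * (1 - q (φ k))) atTop atTop) ∧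
        ((¬ SameType F G ∧ ¬ InfinitelyDivisible G) ↔ ∃ β₁ β₂ : ℝ, 0 < β₁ ∧
          ∀ᶠ k in atTop, β₁ ≤ (φ k : ℝ) * (1 - q (φ k)) ∧ (φ k : ℝ) * (1 - q (φ k)) ≤ β₂) ∧
        (IsGaussian G → Tendsto (fun k => (φ k : ℝ) * (1 - q (φ k))) atTop atTop)) ∧
    (∀ β₁ β₂ : ℝ, 0 < β₁ →
      (∀ᶠ n : ℕ in atTop, β₁ ≤ (n : ℝ) * (1 - q n) ∧ (n : ℝ) * (1 - q n) ≤ β₂) →
      (∀ ε : ℝ, 0 < ε → ∃ K : ℝ, ∀ᶠ n : ℕ in atTop,
        1 - ε ≤ mallowsCDF (q n) n (centre (q n) n + K * (n : ℝ) ^ (1 / 6 : ℝ)) -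
          mallowsCDF (q n) n (centre (q n) n - K * (n : ℝ) ^ (1 / 6 : ℝ))) ∧
      (∀ φ : ℕ → ℕ, StrictMono φ → ∃ ψ : ℕ → ℕ, StrictMono ψ ∧
        ∃ G : ℝ → ℝ, IsDistributionFunction G ∧
          LimitAlong q (φ ∘ ψ) (fun n => centre (q n) n) (fun n => (n : ℝ) ^ (1 / 6 : ℝ)) G) ∧
      (∀ φ : ℕ → ℕ, StrictMono φ → ∀ G : ℝ → ℝ, IsDistributionFunction G →
        LimitAlong q φ (fun n => centre (q n) n) (fun n => (n : ℝ) ^ (1 / 6 : ℝ)) G →
          Nondegenerate G ∧ ¬ SameType F G ∧ ¬ InfinitelyDivisible G ∧ ¬ IsGaussian G)) :=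
  ⟨fun _ hφ _ _ hb _ hG hn hlim => class_part hF hq hq1 hφ hb hG hn hlim,
    fun _ _ hβ hw => ⟨fun ε hε => tight_part hq hβ hw ε hε, fun _ hφ => exists_part hq hβ hw hφ,
      fun _ hφ _ hG hlim => third_part hF hq hq1 hβ hw hφ hG hlim⟩⟩

end Pool.Agent.Results.MP_5d6058_pr.LimitLaws
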