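import Mathlib
import Pool.Agent.TWM.Final

/-!
# Tracy-Widom limit of the Mallows longest increasing subsequence: the criterion

For `q_n → 1` the length of the longest increasing subsequence of a Mallows permutation has a
Tracy-Widom limit if and only if `n (1 - q_n) → 0`.
-/

namespace Pool.Agent.Results.MP_5d6058_pr.TracyWidomIff

open Finset Filter Topology

/-- number of inversions of a permutation -/
def inv {n : ℕ} (π : Equiv.Perm (Fin n)) : ℕ :=
  ((univ : Finset (Fin n × Fin n)).filter (fun a => a.1 < a.2 ∧ π a.2 < π a.1)).card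

open Classical in
/-- length of a longest increasing subsequence of a permutation: the largest cardinality of a set
of positions on which the permutation is strictly increasing -/
noncomputable def lis {n : ℕ} (π : Equiv.Perm (Fin n)) : ℕ :=
  ((univ : Finset (Finset (Fin n))).filter (fun s : Finset (Fin n) =>
    StrictMonoOn π (s : Set (Fin n)))).sup card

open Classical in
/-- the probability, under the Mallows measure with parameter `q` on the permutations of `n`
points, that the longest increasing subsequence has length at most `y` -/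
noncomputable def mallowsCDF (q : ℝ) (n : ℕ) (y : ℝ) : ℝ :=
  (∑ π : Equiv.Perm (Fin n), if (lis π : ℝ) ≤ y then q ^ inv π else 0) /
    (∑ π : Equiv.Perm (Fin n), q ^ inv π)

/-- `F` is the distribution function of a probability measure on the line -/
def IsDistributionFunction (F : ℝ → ℝ) : Prop :=
  Monotone F ∧ (∀ x, ContinuousWithinAt F (Set.Ici x) x) ∧
    Tendsto F atBot (𝓝 0) ∧ Tendsto F atTop (𝓝 1)

/-- convergence in distribution of a sequence of laws, given by their distribution functions,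
to the law with distribution function `F` -/
def ConvergesInLaw (G : ℕ → ℝ → ℝ) (F : ℝ → ℝ) : Prop :=
  ∀ x, ContinuousAt F x → Tendsto (fun n => G n x) atTop (𝓝 (F x))

/-- `F` is the limit in distribution of `(L_n(1) - 2 √n) / n^{1/6}`, the Tracy-Widom law -/
def IsTracyWidom (F : ℝ → ℝ) : Prop :=
  IsDistributionFunction F ∧
    ConvergesInLaw (fun n x => mallowsCDF 1 n (2 * Real.sqrt n + x * (n : ℝ) ^ (1 / 6 : ℝ))) F

/-- `L_n` has the limit law `F` along `q`: there are real numbers `a_n` and `b_n > 0` such that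
`(L_n(q_n) - a_n) / b_n` converges in distribution to the law with distribution function `F` -/
def HasLimitAlong (F : ℝ → ℝ) (q : ℕ → ℝ) : Prop :=
  ∃ a b : ℕ → ℝ, (∀ n, 0 < b n) ∧ ConvergesInLaw (fun n x => mallowsCDF (q n) n (a n + x * b n)) F

open Pool.Agent.Hhelper99 in
lemma mallowsCDF_eq {q : ℝ} {n : ℕ} {y : ℝ} (hy : 0 ≤ y) :
    mallowsCDF q n y = mal q n ⌊y⌋₊ := by
  unfold mallowsCDF mal
  have h1 : ∀ π : Equiv.Perm (Fin n), inv π = invP (fun i : Fin n => i) π := by
    intro π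
    unfold inv invP invSet
    congr 1
    ext a
    simp
  have h2 : ∀ π : Equiv.Perm (Fin n), lis π = lisP (fun i : Fin n => i) π := by
    intro π
    unfold lis
    exact lisP_eq_sup π
  congr 1
  · apply Finset.sum_congr rfl
    intro π _
    rw [h1, h2]
    have h3 := Nat.le_floor_iff (n := lisP (fun i : Fin n => i) π) hy
    by_cases h : (lisP (fun i : Fin n => i) π : ℝ) ≤ y
    · rw [if_pos h, if_pos (h3.2 h), mul_one]
    · rw [if_neg h, if_neg (fun h' => h (h3.1 h')), mul_zero]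
  · apply Finset.sum_congr rfl
    intro π _
    rw [h1]

open Pool.Agent.Hhelper99 Pool.Agent.TWM in
lemma mallowsCDF_eq_malR (q : ℝ) (n : ℕ) (y : ℝ) : mallowsCDF q n y = malR q n y := by
  unfold malR
  split_ifs with h
  · unfold mallowsCDF
    have : ∀ π : Equiv.Perm (Fin n), (if (lis π : ℝ) ≤ y then q ^ inv π else 0) = 0 := by
      intro π
      rw [if_neg]
      intro h'
      have : (0 : ℝ) ≤ (lis π : ℝ) := Nat.cast_nonneg _
      linarith
    rw [Finset.sum_congr rfl (fun π _ => this π)]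
    simp
  · exact mallowsCDF_eq (not_lt.1 h)

open Pool.Agent.Hhelper99 Pool.Agent.TWM in
lemma limLaw_of {F : ℝ → ℝ} (hF : IsTracyWidom F) : LimLaw F := by
  obtain ⟨⟨hmono, -, hF0, hF1⟩, hTW⟩ := hF
  refine ⟨hmono, hF0, hF1, ?_⟩
  intro x hx
  apply (hTW x hx).congr'
  filter_upwards [threshold_nonneg (a := fun n : ℕ => Real.sqrt n)
    (Filter.Eventually.of_forall (fun n => le_rfl)) x] with n hn
  exact mallowsCDF_eq hn

open Pool.Agent.TWM in
lemma hasLimitAlong_iff {F : ℝ → ℝ} {q : ℕ → ℝ} :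
    HasLimitAlong F q ↔ TWAlong F q (fun n => n) := by
  unfold HasLimitAlong ConvergesInLaw TWAlong
  simp only [mallowsCDF_eq_malR]

open Pool.Agent.TWM in
theorem criterion {F : ℝ → ℝ} (hF : IsTracyWidom F) (q : ℕ → ℝ) (hq : ∀ n, 0 < q n ∧ q n ≤ 1)
    (hq1 : Tendsto q atTop (𝓝 1)) :
    HasLimitAlong F q ↔ Tendsto (fun n : ℕ => (n : ℝ) * (1 - q n)) atTop (𝓝 0) := by
  rw [hasLimitAlong_iff]
  exact ⟨tw_imp (limLaw_of hF) (fun n => (hq n).1) (fun n => (hq n).2) hq1,
    tw_of (limLaw_of hF) (fun n => (hq n).1) (fun n => (hq n).2)⟩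

lemma powers {γ : ℝ} (hγ : 0 < γ) {q : ℕ → ℝ}
    (h : ∀ᶠ n : ℕ in atTop, q n = 1 - (n : ℝ) ^ (-γ)) :
    Tendsto q atTop (𝓝 1) ∧
      (Tendsto (fun n : ℕ => (n : ℝ) * (1 - q n)) atTop (𝓝 0) ↔ 1 < γ) := by
  have h0 : Tendsto (fun n : ℕ => (n : ℝ) ^ (-γ)) atTop (𝓝 0) :=
    (tendsto_rpow_neg_atTop hγ).comp tendsto_natCast_atTop_atTop
  have he : ∀ᶠ n : ℕ in atTop, (n : ℝ) * (1 - q n) = (n : ℝ) ^ (1 - γ) := by
    filter_upwards [h, eventually_ge_atTop 1] with n hn hn1
    have hnpos : (0 : ℝ) < n := by exact_mod_cast hn1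
    rw [hn, sub_sub_cancel, sub_eq_add_neg, Real.rpow_add hnpos, Real.rpow_one]
  constructor
  · have h1 : Tendsto (fun n : ℕ => 1 - (n : ℝ) ^ (-γ)) atTop (𝓝 (1 - 0)) := h0.const_sub 1
    rw [sub_zero] at h1
    exact h1.congr' (by filter_upwards [h] with n hn using hn.symm)
  · rw [Filter.tendsto_congr' he]
    constructor
    · intro ht
      by_contra hcon
      have hge : 0 ≤ 1 - γ := by linarith [not_lt.1 hcon]
      have h2 : ∀ᶠ n : ℕ in atTop, (1 : ℝ) ≤ (n : ℝ) ^ (1 - γ) := by
        filter_upwards [eventually_ge_atTop 1] with n hn1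
        exact Real.one_le_rpow (by exact_mod_cast hn1) hge
      have h3 := ht.eventually (gt_mem_nhds (show (0 : ℝ) < 1 by norm_num))
      obtain ⟨n, h4, h5⟩ := (h2.and h3).exists
      linarith
    · intro hg
      have h6 : Tendsto (fun n : ℕ => (n : ℝ) ^ (-(γ - 1))) atTop (𝓝 0) :=
        (tendsto_rpow_neg_atTop (by linarith)).comp tendsto_natCast_atTop_atTop
      have e : (fun n : ℕ => (n : ℝ) ^ (1 - γ)) = fun n : ℕ => (n : ℝ) ^ (-(γ - 1)) := by
        ext n; congr 1; ring
      rw [e]; exact h6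

/-- For `q_n → 1` the Mallows longest increasing subsequence has a Tracy-Widom limit along `q_n`
if and only if `n (1 - q_n) → 0`; in particular, for `1 - q_n = n^{-γ}`, if and only if `γ > 1`. -/
theorem result {F : ℝ → ℝ} (hF : IsTracyWidom F) (q : ℕ → ℝ) (hq : ∀ n, 0 < q n ∧ q n ≤ 1)
    (hq1 : Tendsto q atTop (𝓝 1)) :
    (HasLimitAlong F q ↔ Tendsto (fun n : ℕ => (n : ℝ) * (1 - q n)) atTop (𝓝 0)) ∧
    (∀ γ : ℝ, 0 < γ → (∀ᶠ n : ℕ in atTop, q n = 1 - (n : ℝ) ^ (-γ)) →
      (HasLimitAlong F q ↔ 1 < γ)) :=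
  ⟨criterion hF q hq hq1, fun _ hγ h => (criterion hF q hq hq1).trans (powers hγ h).2⟩

end Pool.Agent.Results.MP_5d6058_pr.TracyWidomIff
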